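import Pool.Agent.H37.CNK.Stmts

/-!
Row MLA of board cnk (MP_b57703_ag): the main lemma.
-/

set_option autoImplicit false

namespace Pool.CND

theorem mla_thm (h1 : S_DRV) (h2 : S_YIS) (h3 : S_YML) (h4 : S_ME1) (h5 : S_ME2) (h6 : S_ME3) :
    S_MLA := by
  intro p k L G _ _ _ _ _ _ ρ t P z x N C₁ H
  haveI : CharP k p := H.cv.ch
  obtain ⟨Δ, hΔ, hc⟩ := h1 k L G ρ t H.cv.cov
  obtain ⟨d, n, y, u, hy⟩ := h2 p k L G ρ t P Δ z x N C₁ H hΔ hc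
  obtain ⟨Y, g₁, B, hY⟩ := h3 p d k L G ρ t P Δ z x N C₁ n y u H hy
  obtain ⟨q, hq, hYq, hne, hord, hle⟩ := h4 p d k L G ρ t P Δ z x N C₁ n y u Y g₁ B hΔ hc H hy hY
  have hg := h5 p d k L G ρ t P Δ z x N C₁ n y u q Y g₁ B hΔ hc H hy hY hq hYq
  exact h6 p d k L G ρ t P Δ z x N C₁ n y u q Y g₁ B hΔ hc H hy hY hq hne hord hle hg

end Pool.CND
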